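import Mathlib
import Pool.Agent.TH119.GO.Gal

/-!
# Geometric origin of Galois representations: one prime suffices

Let `K` and `E` be number fields, and let `P_v`, `Q_v` be polynomials over `E`, for the primes `v` of
`K`: think of the Hecke polynomials of a newform `f` over `K` with Hecke eigenvalues in `E`, and of
the characteristic polynomials of the Frobenius elements on `W_p = H^i(X, ℚ̄_p)(j)` for a smooth
projective variety `X` over `K`.  If for *one* prime `p` the representation `ρ_{f,p}` is a
subquotient of `W_p`, or if merely `P_v` divides `Q_v` for a set of primes `v` of density one, then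
for *all* primes `p` (and all embeddings of `E`) the irreducible representation `ρ_{f,p}` is a
subquotient of a tensor construction `W_p^{⊗ a} ⊗ (W_p^∨)^{⊗ b}`, hence arises from the étale
cohomology of `X^{a+b}` (Künneth formula and Poincaré duality).
-/

namespace Pool.Agent.Results.MP_2e0e07_nt.OnePrimeSuffices

open NumberField IsDedekindDomain Polynomial Filter Topology

/-- The absolute Galois group, with the Krull topology. -/
abbrev AbsGal (K : Type) [Field K] : Type := Gal(AlgebraicClosure K/K)

/-- `σ` is a Frobenius element at the prime `v` of `K`: there is a maximal ideal `Q` above `v` of the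
ring of all algebraic integers with `σ x ≡ x ^ N(v)` modulo `Q` for all `x`. -/
def IsFrobenius {K : Type} [Field K] [NumberField K] (v : HeightOneSpectrum (𝓞 K))
    (σ : AbsGal K) : Prop :=
  ∃ Q : Ideal (𝓞 (AlgebraicClosure K)), Q.IsMaximal ∧
    Q.comap (algebraMap (𝓞 K) (𝓞 (AlgebraicClosure K))) = v.asIdeal ∧
    ∀ x : 𝓞 (AlgebraicClosure K), σ • x - x ^ Ideal.absNorm v.asIdeal ∈ Q

/-- The set `S` of primes of `K` has (natural) density zero. Finite sets have density zero. -/
def HasDensityZero {K : Type} [Field K] [NumberField K]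
    (S : Set (HeightOneSpectrum (𝓞 K))) : Prop :=
  Tendsto (fun N : ℕ =>
    ({v : HeightOneSpectrum (𝓞 K) | Ideal.absNorm v.asIdeal ≤ N ∧ v ∈ S}.ncard : ℝ) /
    {v : HeightOneSpectrum (𝓞 K) | Ideal.absNorm v.asIdeal ≤ N}.ncard) atTop (𝓝 0)

/-- For the primes `v` outside `S`, all Frobenius elements at `v` have the characteristic polynomial
`ι(P_v)` in the representation `ρ` over `k`, for the embedding `ι : E → k`. -/
def HasFrobenius {K E : Type} [Field K] [NumberField K] [Field E] {n : ℕ}
    (P : HeightOneSpectrum (𝓞 K) → E[X]) (S : Set (HeightOneSpectrum (𝓞 K)))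
    {k : Type} [Field k] (ι : E →+* k)
    (ρ : AbsGal K →* Matrix.GeneralLinearGroup (Fin n) k) : Prop :=
  ∀ v ∉ S, ∀ σ, IsFrobenius v σ → (ρ σ : Matrix (Fin n) (Fin n) k).charpoly = (P v).map ι

/-- The representation `ρ` is irreducible. -/
def IsIrreducible {G : Type} [Group G] {n : ℕ} {k : Type} [Field k]
    (ρ : G →* Matrix.GeneralLinearGroup (Fin n) k) : Prop :=
  ∀ V : Submodule k (Fin n → k),
    (∀ g, ∀ x ∈ V, (ρ g : Matrix (Fin n) (Fin n) k).mulVec x ∈ V) → V = ⊥ ∨ V = ⊤

/-- `ρ` is a subquotient of the representation of `G` by the matrices `M(g)`: there are a subspace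
`U` stable under all `M(g)` and an equivariant surjective linear map from `U` to the space of
`ρ`. -/
def IsSubquotient {G : Type} [Group G] {n : ℕ} {k : Type} [Field k] {ι : Type} [Fintype ι]
    (ρ : G →* Matrix.GeneralLinearGroup (Fin n) k) (M : G → Matrix ι ι k) : Prop :=
  ∃ (U : Submodule k (ι → k)) (hU : ∀ g, ∀ u ∈ U, (M g).mulVec u ∈ U)
    (π : U →ₗ[k] (Fin n → k)), Function.Surjective π ∧
    ∀ g (u : U), π ⟨(M g).mulVec u, hU g u u.2⟩ =
      (ρ g : Matrix (Fin n) (Fin n) k).mulVec (π u)

/-- The matrices of the representation `W^{⊗ a} ⊗ (W^∨)^{⊗ b}` in the standard basis: the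
coefficients are products of `a` coefficients of `W(g)` and `b` coefficients of the transpose of
`W(g⁻¹)`. -/
def tensorConstruction {G : Type} [Group G] {m : ℕ} {k : Type} [Field k]
    (W : G →* Matrix.GeneralLinearGroup (Fin m) k) (a b : ℕ) (g : G) :
    Matrix ((Fin a → Fin m) × (Fin b → Fin m)) ((Fin a → Fin m) × (Fin b → Fin m)) k :=
  Matrix.of fun I J => (∏ s, (W g : Matrix (Fin m) (Fin m) k) (I.1 s) (J.1 s)) *
    ∏ t, (W g⁻¹ : Matrix (Fin m) (Fin m) k) (J.2 t) (I.2 t)

/-- **Theorem.** Let `K`, `E` be number fields and let `P_v`, `Q_v` be polynomials over `E` for the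
primes `v` of `K`. Let `S` be a set of primes of density zero. Suppose that `P_v` divides `Q_v` for
all `v` outside `S`, or that for *one* field `k₁` and one embedding `ι₁` of `E` in `k₁` there are
representations `ρ₁`, `W₁` over `k₁` with the Frobenius polynomials `P_v`, `Q_v` outside `S` such
that `ρ₁` is a subquotient of `W₁`. Then for *every* embedding `ι` of `E` in an algebraically closed
Hausdorff topological field `k`, every continuous irreducible `ρ` with the Frobenius polynomials
`P_v` is a subquotient of some tensor construction `W^{⊗ a} ⊗ (W^∨)^{⊗ b}`, for every continuous `W`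
with the Frobenius polynomials `Q_v` (outside a set of density zero). -/
theorem result {n m : ℕ} (hn : 0 < n) (K : Type) [Field K] [NumberField K] (E : Type) [Field E]
    [NumberField E] (P Q : HeightOneSpectrum (𝓞 K) → E[X])
    (S : Set (HeightOneSpectrum (𝓞 K))) (hS : HasDensityZero S)
    (h : (∀ v ∉ S, P v ∣ Q v) ∨
      ∃ (k₁ : Type) (_ : Field k₁) (ι₁ : E →+* k₁)
        (ρ₁ : AbsGal K →* Matrix.GeneralLinearGroup (Fin n) k₁)
        (W₁ : AbsGal K →* Matrix.GeneralLinearGroup (Fin m) k₁),
        HasFrobenius P S ι₁ ρ₁ ∧ HasFrobenius Q S ι₁ W₁ ∧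
        IsSubquotient ρ₁ fun g => (W₁ g : Matrix (Fin m) (Fin m) k₁))
    (k : Type) [Field k] [IsAlgClosed k] [TopologicalSpace k] [IsTopologicalRing k] [T2Space k]
    (ι : E →+* k) (T : Set (HeightOneSpectrum (𝓞 K))) (hT : HasDensityZero T)
    (ρ : AbsGal K →* Matrix.GeneralLinearGroup (Fin n) k)
    (hρc : Continuous fun g => (ρ g : Matrix (Fin n) (Fin n) k))
    (hρ : HasFrobenius P T ι ρ) (hirr : IsIrreducible ρ)
    (W : AbsGal K →* Matrix.GeneralLinearGroup (Fin m) k)
    (hWc : Continuous fun g => (W g : Matrix (Fin m) (Fin m) k))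
    (hW : HasFrobenius Q T ι W) :
    ∃ a b : ℕ, IsSubquotient ρ (tensorConstruction W a b) := by
  have : CharZero k := charZero_of_injective_ringHom ι.injective
  have hdiv : ∀ v ∉ S, P v ∣ Q v := by
    rcases h with h | ⟨k₁, _, ι₁, ρ₁, W₁, h1, h2, h3⟩
    · exact h
    · intro v hv
      have : CharZero k₁ := charZero_of_injective_ringHom ι₁.injective
      obtain ⟨τ, hτ⟩ := (Pool.Agent.W401.Frob.main K).1 v
      have h4 := Pool.Agent.TH119.GO.SubQ.dvd (ρ := ρ₁) h3 τ
      have h5 : (ρ₁ τ : Matrix (Fin n) (Fin n) k₁).charpoly = (P v).map ι₁ := h1 v hv τ hτ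
      have h6 : (W₁ τ : Matrix (Fin m) (Fin m) k₁).charpoly = (Q v).map ι₁ := h2 v hv τ hτ
      rw [h5, h6] at h4
      exact (Polynomial.map_dvd_map' ι₁).1 h4
  refine Pool.Agent.TH119.GO.main hn ρ hρc W hWc hirr (S ∪ T)
    ((Pool.Agent.TH119.GO.thin_of_tendsto S hS).union
      (Pool.Agent.TH119.GO.thin_of_tendsto T hT)) ?_
  intro v hv τ hτ
  have h5 : (ρ τ : Matrix (Fin n) (Fin n) k).charpoly = (P v).map ι :=
    hρ v (fun h => hv (Or.inr h)) τ hτ
  have h6 : (W τ : Matrix (Fin m) (Fin m) k).charpoly = (Q v).map ι :=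
    hW v (fun h => hv (Or.inr h)) τ hτ
  rw [h5, h6]
  exact Polynomial.map_dvd ι (hdiv v fun h => hv (Or.inl h))

end Pool.Agent.Results.MP_2e0e07_nt.OnePrimeSuffices
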